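import Mathlib

/-! The complementary arc of an arc in a Jordan curve. -/

open Set Topology

namespace H828R2

theorem exists_arc {γ : Circle → ℂ} (hγ : Continuous γ) (hinj : Function.Injective γ)
    {S : ℝ → ℂ} (hS : Continuous S) (hSinj : InjOn S (Icc 0 1)) (hSr : ∀ x, S x ∈ range γ) :
    ∃ A : ℝ → ℂ, Continuous A ∧ A 0 = S 0 ∧ A 1 = S 1 ∧ (∀ t, A t ∈ range γ) ∧
      ∀ t ∈ Ioo (0 : ℝ) 1, ∀ x ∈ Icc (0 : ℝ) 1, A t ≠ S x := by
  choose g hg using hSr
  have hgc : Continuous g := by
    rw [(hγ.isClosedEmbedding hinj).isEmbedding.continuous_iff]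
    have : γ ∘ g = S := funext hg
    rw [this]; exact hS
  have hginj : InjOn g (Icc 0 1) := by
    intro x hx y hy hxy
    apply hSinj hx hy
    rw [← hg, ← hg, hxy]
  have hpi := Real.pi_pos
  set k : Circle := g (1 / 2) * Circle.exp Real.pi with hk
  set ψ : Circle → ℝ := fun z => ((k⁻¹ * z : Circle) : ℂ).arg with hψ
  set E : ℝ → Circle := fun t => k * Circle.exp t with hE
  have hEc : Continuous E := by
    have : Continuous Circle.exp := Circle.exp.continuous
    exact continuous_const.mul this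
  have hEψ : ∀ z, E (ψ z) = z := by
    intro z
    simp only [hE, hψ]
    rw [Circle.exp_arg, mul_inv_cancel_left]
  have hψE : ∀ t, -Real.pi < t → t ≤ Real.pi → ψ (E t) = t := by
    intro t h1 h2
    simp only [hE, hψ]
    rw [inv_mul_cancel_left, Circle.arg_exp h1 h2]
  have hc : ψ (g (1 / 2)) = Real.pi := by
    have : g (1 / 2) = E Real.pi := by
      simp only [hE]
      rw [hk, mul_assoc, ← Circle.exp_add]
      have : Circle.exp (Real.pi + Real.pi) = 1 := by
        rw [← two_mul]; exact Circle.exp_two_pi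
      rw [this, mul_one]
    rw [this, hψE _ (by linarith) le_rfl]
  have hψr : ∀ x ∈ Icc (0 : ℝ) 1, x ≠ 1 / 2 → -Real.pi < ψ (g x) ∧ ψ (g x) < Real.pi := by
    intro x hx hx2
    refine ⟨Complex.neg_pi_lt_arg _, lt_of_le_of_ne (Complex.arg_le_pi _) (fun h => ?_)⟩
    apply hx2
    apply hginj hx (by norm_num)
    rw [← hEψ (g x), ← hEψ (g (1 / 2)), hc]
    congr 1
  obtain ⟨a1, a2⟩ := hψr 0 (by norm_num) (by norm_num)
  obtain ⟨b1, b2⟩ := hψr 1 (by norm_num) (by norm_num)
  set α := ψ (g 0) with hα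
  set β := ψ (g 1) with hβ
  have hαβ : α ≠ β := by
    intro h
    have : g 0 = g 1 := by rw [← hEψ (g 0), ← hEψ (g 1)]; exact congrArg E h
    have := hginj (by norm_num) (by norm_num) this
    norm_num at this
  set lo := min α β with hlo
  set hi := max α β with hhi
  have hlo1 : -Real.pi < lo := lt_min a1 b1
  have hhi1 : hi < Real.pi := max_lt a2 b2
  refine ⟨fun t => γ (E (α + t * (β - α))), hγ.comp (hEc.comp (by fun_prop)), ?_, ?_,
    fun t => mem_range_self _, ?_⟩
  · simp only [zero_mul, add_zero]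
    rw [← hg 0, hα, hEψ]
  · have : α + 1 * (β - α) = β := by ring
    simp only [this]
    rw [← hg 1, hβ, hEψ]
  intro t ht x hx hcon
  rw [← hg x] at hcon
  have hcon := hinj hcon
  set s := α + t * (β - α) with hs
  have hs1 : lo < s ∧ s < hi := by
    rcases lt_or_gt_of_ne hαβ with h | h
    · rw [hlo, hhi, min_eq_left h.le, max_eq_right h.le, hs]
      constructor <;> nlinarith [ht.1, ht.2, mul_pos ht.1 (sub_pos.2 h),
        mul_pos (sub_pos.2 ht.2) (sub_pos.2 h)]
    · rw [hlo, hhi, min_eq_right h.le, max_eq_left h.le, hs]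
      constructor <;> nlinarith [ht.1, ht.2, mul_pos ht.1 (sub_pos.2 h),
        mul_pos (sub_pos.2 ht.2) (sub_pos.2 h)]
  have hψs : ψ (g x) = s := by rw [← hcon]; exact hψE s (by linarith) (by linarith)
  have hgα : g 0 = E α := (hEψ _).symm
  have hgβ : g 1 = E β := (hEψ _).symm
  have hx0 : x ≠ 0 := by
    intro h
    rw [h] at hψs
    have : lo ≤ α ∧ α ≤ hi := ⟨min_le_left _ _, le_max_left _ _⟩
    have hsα : s = α := by rw [← hψs]
    rcases lt_or_gt_of_ne hαβ with h' | h'
    · rw [hs] at hsα; nlinarith [mul_pos ht.1 (sub_pos.2 h')]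
    · rw [hs] at hsα; nlinarith [mul_pos ht.1 (sub_pos.2 h')]
  have hx1 : x ≠ 1 := by
    intro h
    rw [h] at hψs
    have hsβ : s = β := by rw [← hψs]
    rcases lt_or_gt_of_ne hαβ with h' | h'
    · rw [hs] at hsβ; nlinarith [mul_pos (sub_pos.2 ht.2) (sub_pos.2 h')]
    · rw [hs] at hsβ; nlinarith [mul_pos (sub_pos.2 ht.2) (sub_pos.2 h')]
  have hx2 : x ≠ 1 / 2 := by
    intro h
    rw [h, hc] at hψs
    linarith [hs1.2]
  -- the two open sets
  have hO1 : IsOpen ({z : Circle | ((k⁻¹ * z : Circle) : ℂ) ∈ Complex.slitPlane} ∩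
      ψ ⁻¹' Ioo lo hi) := by
    apply ContinuousOn.isOpen_inter_preimage _ _ isOpen_Ioo
    · intro z hz
      apply ContinuousAt.continuousWithinAt
      have h1 : Continuous (fun z : Circle => ((k⁻¹ * z : Circle) : ℂ)) :=
        continuous_subtype_val.comp (continuous_const.mul continuous_id)
      exact (Complex.continuousAt_arg hz).comp (f := fun z : Circle => ((k⁻¹ * z : Circle) : ℂ))
        h1.continuousAt
    · exact Complex.isOpen_slitPlane.preimage
        (continuous_subtype_val.comp (continuous_const.mul continuous_id))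
  have hO2 : IsOpen (E '' Icc lo hi)ᶜ := (isCompact_Icc.image hEc).isClosed.isOpen_compl
  -- the connected piece of `g`
  set J : Set ℝ := uIcc x (1 / 2) with hJ
  have hJsub : J ⊆ Ioo (0 : ℝ) 1 := by
    intro y hy
    rw [hJ, mem_uIcc] at hy
    have hx' : 0 < x ∧ x < 1 := ⟨lt_of_le_of_ne hx.1 (Ne.symm hx0), lt_of_le_of_ne hx.2 hx1⟩
    rcases hy with ⟨h1, h2⟩ | ⟨h1, h2⟩
    · exact ⟨by linarith, by linarith⟩
    · exact ⟨by linarith, by linarith⟩
  have hJc : IsPreconnected (g '' J) := isPreconnected_uIcc.image _ hgc.continuousOn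
  have hcover : g '' J ⊆ ({z : Circle | ((k⁻¹ * z : Circle) : ℂ) ∈ Complex.slitPlane} ∩
      ψ ⁻¹' Ioo lo hi) ∪ (E '' Icc lo hi)ᶜ := by
    rintro _ ⟨y, hy, rfl⟩
    by_cases h2 : g y ∈ E '' Icc lo hi
    · left
      obtain ⟨u, hu, hue⟩ := h2
      have hyu : ψ (g y) = u := by
        rw [← hue]; exact hψE u (by linarith [hu.1]) (by linarith [hu.2])
      have hyI := hJsub hy
      have hy' : y ∈ Icc (0 : ℝ) 1 := Ioo_subset_Icc_self hyI
      have huα : u ≠ α := by
        intro h
        have : g y = g 0 := by rw [← hue, hgα, h]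
        have := hginj hy' (by norm_num) this
        linarith [hyI.1]
      have huβ : u ≠ β := by
        intro h
        have : g y = g 1 := by rw [← hue, hgβ, h]
        have := hginj hy' (by norm_num) this
        linarith [hyI.2]
      have hlou : lo ≠ u := by
        rcases min_choice α β with h | h
        · rw [hlo, h]; exact huα.symm
        · rw [hlo, h]; exact huβ.symm
      have hhiu : u ≠ hi := by
        rcases max_choice α β with h | h
        · rw [hhi, h]; exact huα
        · rw [hhi, h]; exact huβ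
      have hu' : u ∈ Ioo lo hi := ⟨lt_of_le_of_ne hu.1 hlou, lt_of_le_of_ne hu.2 hhiu⟩
      refine ⟨?_, ?_⟩
      · show ((k⁻¹ * g y : Circle) : ℂ) ∈ Complex.slitPlane
        rw [Complex.mem_slitPlane_iff_arg]
        refine ⟨?_, Circle.coe_ne_zero _⟩
        intro h
        have : ψ (g y) = Real.pi := h
        linarith [hu'.2]
      · show ψ (g y) ∈ Ioo lo hi
        rw [hyu]; exact hu'
    · exact Or.inr h2
  obtain ⟨z, -, hz1, hz2⟩ := hJc _ _ hO1 hO2 hcover
    ⟨g x, ⟨x, left_mem_uIcc, rfl⟩, by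
      refine ⟨?_, ?_⟩
      · show ((k⁻¹ * g x : Circle) : ℂ) ∈ Complex.slitPlane
        rw [Complex.mem_slitPlane_iff_arg]
        refine ⟨?_, Circle.coe_ne_zero _⟩
        intro h
        have : ψ (g x) = Real.pi := h
        linarith [hs1.2]
      · show ψ (g x) ∈ Ioo lo hi
        rw [hψs]; exact hs1⟩
    ⟨g (1 / 2), ⟨1 / 2, right_mem_uIcc, rfl⟩, by
      rintro ⟨u, hu, hue⟩
      have : ψ (E u) = u := hψE u (by linarith [hu.1]) (by linarith [hu.2])
      rw [hue, hc] at this
      linarith [hu.2]⟩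
  apply hz2
  exact ⟨ψ z, Ioo_subset_Icc_self hz1.2, hEψ z⟩

end H828R2
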